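import Pool.Agent.Helper218_SB.LowerOne
import Pool.Agent.Helper218_SB.LowerTop
import Pool.Agent.Helper218_SB.Final
import Pool.Agent.Helper218_SB.UTwo

/-!
# MP_919f0c_an, Question 1 for `p = 1` and `p = ∞`: the right order of `ϱ_m(𝐁^r_{p,θ}, L_p)`

For every `d ≥ 1`, `p ∈ {1, ∞}`, `1 < θ ≤ ∞`, `r > 1/p` and every order `k > r` of the differences,
`ϱ_m(𝐁^r_{p,θ}, L_p) ≍ m^{-r} (log m)^{(d-1) (r + 1 - 1/θ)}`: no choice of `m` nodes and of a linear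
algorithm is better in order than the Smolyak algorithm.

The definitions of the torus, of the mixed moduli of smoothness, of the Besov classes and of the
sampling numbers are in `Pool/Agent/Helper218_SB/Defs.lean`.
-/

namespace Pool.Agent.Results.MP_919f0c_an.EndpointOrders

open Pool.Agent.Helper218_SB
open scoped ENNReal

/-- The right order of the sampling numbers of `𝐁^r_{p,θ}` in `L_p` for `p = 1` and for `p = ∞`, for
all `1 < θ ≤ ∞` and `r > 1/p`. -/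
theorem result (𝕜 : Type) [RCLike 𝕜] (d k : ℕ) (hd : 1 ≤ d) (p θ : ℝ≥0∞) (hp : p = 1 ∨ p = ∞)
    (hθ : 1 < θ) (r : ℝ) (hr : p⁻¹ < ENNReal.ofReal r) (hk : r < k) :
    ∃ c C : ℝ, 0 < c ∧ 0 < C ∧ ∀ m : ℕ, 2 ≤ m →
      ENNReal.ofReal (c * ((m : ℝ) ^ (-r) *
          (Real.log m) ^ (((d : ℝ) - 1) * (r + 1 - (θ⁻¹).toReal)))) ≤
        samplingNumber m (besovClass 𝕜 d k r p θ) p ∧
      samplingNumber m (besovClass 𝕜 d k r p θ) p ≤
        ENNReal.ofReal (C * ((m : ℝ) ^ (-r) *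
          (Real.log m) ^ (((d : ℝ) - 1) * (r + 1 - (θ⁻¹).toReal)))) := by
  obtain ⟨d', rfl⟩ : ∃ d', d = d' + 1 := ⟨d - 1, by omega⟩
  have hr0 : 0 < r := by
    by_contra h
    rw [ENNReal.ofReal_of_nonpos (not_lt.1 h)] at hr
    exact absurd hr (by simp)
  have ht : (θ⁻¹).toReal ≤ 1 := by
    have h1 : θ⁻¹ ≤ 1 := ENNReal.inv_le_one.2 hθ.le
    simpa using ENNReal.toReal_mono ENNReal.one_ne_top h1
  have ht0 : 0 ≤ (θ⁻¹).toReal := ENNReal.toReal_nonneg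
  have hcast : (((d' + 1 : ℕ) : ℝ) - 1) = d' := by push_cast; ring
  rw [hcast]
  have hlow : ∃ c₁ c₂ : ℝ, 0 < c₁ ∧ c₁ ≤ 1 ∧ 0 < c₂ ∧ ∀ q m : ℕ,
      (m : ℝ) < c₁ * (((q:ℝ) + 1) ^ d' * 2 ^ ((d' + 1) * q)) →
      ENNReal.ofReal (c₂ * ((2 ^ (r * ((d' + 1) * q : ℕ)))⁻¹ *
        (((q:ℝ) + 1) ^ d') ^ (1 - (θ⁻¹).toReal))) ≤
      samplingNumber m (besovClass 𝕜 (d' + 1) k r p θ) p := by
    rcases hp with rfl | rfl
    · exact lower_q_one 𝕜 d' k r hr0 hk θ hθ.le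
    · exact lower_q_top 𝕜 d' k r hr0 hk θ hθ.le
  have hup : ∃ C : ℝ, 0 < C ∧
      ∀ m : ℕ, 2 ≤ m → samplingNumber m (besovClass 𝕜 (d' + 1) k r p θ) p ≤
        ENNReal.ofReal (C * ((m : ℝ) ^ (-r) * (Real.log m) ^ (d' * (r + 1 - (θ⁻¹).toReal)))) := by
    rcases hp with rfl | rfl
    · have hr1 : 1 < r := by
        rw [inv_one] at hr
        exact ENNReal.one_lt_ofReal.1 hr
      simpa [pp] using upper_all 𝕜 false d' hr0 (fun _ => hr1) hk θ hθ.le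
    · simpa [pp] using upper_all 𝕜 true d' hr0 (fun h => absurd h (by simp)) hk θ hθ.le
  obtain ⟨c, hc, h⟩ := exists_lower_all d' r (θ⁻¹).toReal hr0 ht0 ht
    (fun m => samplingNumber m (besovClass 𝕜 (d' + 1) k r p θ) p) hlow
  obtain ⟨C, hC, h'⟩ := hup
  exact ⟨c, C, hc, hC, fun m hm => ⟨h m (by omega), h' m hm⟩⟩

end Pool.Agent.Results.MP_919f0c_an.EndpointOrders
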